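import Pool.Agent.SAO.Five

/-!
# MP_3ce4b0_lc: orientations which are both strong and antistrong

A graph with edge connectivity at least five (and more than one vertex) has an orientation which is
both strong and antistrong if and only if it is not bipartite.

Sketch of the proof. Let `x` be a generic circulation of `G`, with values in the field of rational
functions in `m - n + 1` variables, and let `phi_v` be the product of the flows on the edges at
`v`. If the `phi_v` are algebraically dependent, then, by differentiation, there are functions `p`
and `y`, `y` not zero, with `x_uv (p_v - p_u) = y_u + y_v` for all edges. Contract the components
of the edges with `p_u = p_v`. All degrees in the quotient are at least five; solving the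
conservation laws one vertex after the other shows that all flows lie in a field with fewer
than `m - n + 1` generators, a contradiction. So the `phi_v` are algebraically independent, and
there is a valuation `w` such that the values `w(phi_v)` are independent. The sets of edges on
which `w(x_e)` is at least a given value form a chain of bridgeless subgraphs whose degree vectors
span the space of all vectors. Along such a chain a totally cyclic orientation whose bipartite
representation is connected is built from closed trails, each of which can be oriented in two ways.
-/

set_option autoImplicit false

namespace Pool.Agent.Results.MP_3ce4b0_lc.FiveEdgeConnected

open Pool.Agent.SAO

theorem result (V : Type) [Fintype V] (hV : 2 ≤ Fintype.card V) (G : SimpleGraph V)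
    (hG : G.IsEdgeConnected 5) :
    (∃ D : V → V → Prop, IsOrientation G D ∧ IsStrong D ∧ IsAntistrong D) ↔ ¬ G.IsBipartite := by
  have : Nontrivial V := Fintype.one_lt_card_iff_nontrivial.1 hV
  exact five_iff hG

end Pool.Agent.Results.MP_3ce4b0_lc.FiveEdgeConnected
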