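import Pool.Agent.SAO.Main

/-!
# MP_3ce4b0_lc: orientations which are both strong and antistrong

Let `G` be a graph with at least three vertices such that, for every set `F` of edges, the number
of edges outside `F` is at least `2 c + b - 2`, where `c` is the number of connected components of
the spanning subgraph with edge set `F` and `b` the number of those which are bipartite. Then `G`
has an orientation which is both strong and antistrong.
-/

set_option autoImplicit false

namespace Pool.Agent.Results.MP_3ce4b0_lc.PartitionCondition

open Pool.Agent.SAO

theorem result (V : Type) [Fintype V] (hV : 3 ≤ Fintype.card V) (G : SimpleGraph V)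
    (h : ∀ H ≤ G, 2 * numComp H + numBip H ≤ (G.edgeSet \ H.edgeSet).ncard + 2) :
    ∃ D : V → V → Prop, IsOrientation G D ∧ IsStrong D ∧ IsAntistrong D :=
  Rich.exists_orientation hV h

end Pool.Agent.Results.MP_3ce4b0_lc.PartitionCondition
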