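import Pool.Agent.SAO.TMain

/-!
# MP_3ce4b0_lc: a randomised polynomial-time test for orientations which are strong and antistrong

Let `G` be a graph with at least three vertices which is connected and has no bridge. A
multiplicative circulation on `G` with values in a field `K` is a function `l` on the ordered pairs
of vertices with `l u v * l v u = 1`, equal to `1` outside the edges, such that the product of the
values `l u v` over `v` is `1` for every `u`. It is called rigid if the homogeneous linear system
`a v - b u = l u v * (b v - a u)` (`u v` an edge) has only the constant solutions.

* If some multiplicative circulation, over some field, is rigid, then `G` has an orientation which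
  is strong and antistrong.
* If `G` has such an orientation, then for every finite field `K` with `q` elements the proportion
  of the multiplicative circulations with values in `K` which are not rigid is at most
  `2 n m / (q - 1)`, where `n` and `m` are the numbers of vertices and edges of `G`.

So, with `q > 4 n m`, one solves the linear system for a random multiplicative circulation.

Sketch of the proof. The row of the edge `u v` of the system is `l u v * L + L'`, where `L` and `L'`
are the incidence vectors of the two edges `u' v''` and `v' u''` of the bipartite representation
which correspond to the two directions of `u v`. (2) If `D` is strong it carries a positive
circulation `f` with values at most `m`; for every `l` the circulation `l * s^(-f)` tends, as `s`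
goes to `0`, to the system of `D`, whose kernel is trivial as the bipartite representation of `D` is
connected; so it is rigid for all but `2 n m` values of `s`. (1) By Teichmueller representatives one
may assume characteristic `0`, and `l` may be replaced by a generic one. By differentiation, the
products `psi_u` of the `(l u w - 1) * (l w u - 1)` over the neighbours `w` of `u` are
algebraically independent. So there is a valuation `v` of the field which is injective on
monomials in the `psi_u`. The edges with `v (l u w) > 1` form a totally cyclic digraph, which is
extended along the chain of the bridgeless subgraphs given by the values `v (l u w - 1)` of the
other edges.
-/

set_option autoImplicit false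

namespace Pool.Agent.Results.MP_3ce4b0_lc.RandomizedTest

open Pool.Agent.SAO

theorem result (V : Type) [Fintype V] (hV : 3 ≤ Fintype.card V) (G : SimpleGraph V)
    (hG : G.IsEdgeConnected 2) :
    (∀ (K : Type) [Field K] (l : V → V → K), MultCirc G l → Rigid G l →
      ∃ D : V → V → Prop, IsOrientation G D ∧ IsStrong D ∧ IsAntistrong D) ∧
    ((∃ D : V → V → Prop, IsOrientation G D ∧ IsStrong D ∧ IsAntistrong D) →
      ∀ (K : Type) [Field K] [Fintype K],
        (Fintype.card K - 1) * Nat.card {l : V → V → K // MultCirc G l ∧ ¬ Rigid G l} ≤
          2 * Fintype.card V * Nat.card G.edgeSet * Nat.card {l : V → V → K // MultCirc G l}) :=
  criterion hV hG

end Pool.Agent.Results.MP_3ce4b0_lc.RandomizedTest
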